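import Mathlib
import Pool.Agent.Lib.MP_6babc4_nt.AvgDefs
import Pool.Agent.Lib.MP_6babc4_nt.AvgMain

/-!
# Frey's height inequality for almost all hyperelliptic Jacobians

For every number field `K` of degree `d`, every genus `g ≥ 1` and every degree `n ∈ {2g+1, 2g+2}`,
Frey's inequality holds for all but few of the curves `y² = f(x)`, `deg f = n`, in total and in
each pencil `f = a₀ + P(x)`.

Definitions (in `Lib/MP_6babc4_nt/AvgDefs.lean`, `AvgHeight.lean` and `AvgMain.lean`):

* `FreyAvg.height g f`: minus `1 / (2d)` times the sum, over the embeddings `σ : K → ℂ`, of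
  `log |det G(σ f)|`, with `G` the Gram matrix of the forms `x^i dx / (2y)`, `0 ≤ i < g`. This is
  the normalised Arakelov degree of the determinant of the lattice spanned by these forms, which
  contains the lattice of the Néron differentials: it is an upper bound for the Faltings height.
* `FreyAvg.nodalConductor f`: the product of the norms of the nodal places of `f`
  (`FreyAvg.Nodal`), at which the Jacobian has bad reduction: it divides the conductor.
* `FreyAvg.Frey n κ c f`: `f` has degree `n`, no multiple root and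
  `height ((n - 1) / 2) f ≤ κ log (nodalConductor f) + c`.
* `FreyAvg.Box K H`: the algebraic integers of `K` all of whose conjugates are at most `H`.
* `FreyAvg.Family K n lam H`: the `(a_0, ..., a_n)` with `a_n ≠ 0` and
  `a_i ∈ Box K (H ^ (1 - lam i))`; `FreyAvg.poly a` is `a_0 + a_1 x + ... + a_n x^n`.
-/

open Polynomial NumberField Module FreyAvg

namespace Pool.Agent.Results.MP_6babc4_nt.AlmostAllHyperelliptic

/-- **Frey's inequality for almost all hyperelliptic Jacobians.** Let `K` be a number field of
degree `d`, `n ≥ 3`, `g = ⌊(n - 1) / 2⌋`, `0 ≤ lam ≤ 1 / n` and `κ, ε > 0`. There is a constant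
`c` such that for all `H ≥ 1` the inequality `height f ≤ κ log (nodalConductor f) + c` holds for
all the polynomials `f` of the family, with the exception of a proportion at most
`c (H ^ (g (1 - lam (g + 1)) / (2κ) - d + ε) + H ^ (- d (1 - lam)))`, and, in each pencil
`a_0 + P(x)` of the family with `P'` separable, with the exception of a proportion at most
`c H ^ (g (1 - lam (g + 1)) / (2κ) - d + ε)` of the `a_0` with conjugates at most `H`. -/
theorem result (K : Type*) [Field K] [NumberField K] (n g : ℕ) (hn : 3 ≤ n)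
    (hg : g = (n - 1) / 2) (lam : ℝ) (hl0 : 0 ≤ lam) (hl1 : lam ≤ 1 / n) (κ ε : ℝ) (hκ : 0 < κ)
    (hε : 0 < ε) :
    ∃ c : ℝ, ∀ H : ℝ, 1 ≤ H →
      (Box K H).Finite ∧
      ({a ∈ Family K n lam H | ¬ Frey n κ c (poly a)}.ncard : ℝ) ≤
        c * (H ^ (g * (1 - lam * (g + 1)) / (2 * κ) - finrank ℚ K + ε) +
          H ^ (-((finrank ℚ K : ℝ) * (1 - lam)))) * ((Family K n lam H).ncard : ℝ) ∧
      ∀ P : (𝓞 K)[X], P.natDegree = n → (∀ i : ℕ, P.coeff i ∈ Box K (H ^ (1 - lam * i))) →
        ((derivative P).map (algebraMap (𝓞 K) K)).Separable →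
        ({t ∈ Box K H | ¬ Frey n κ c (C t + P)}.ncard : ℝ) ≤
          c * H ^ (g * (1 - lam * (g + 1)) / (2 * κ) - finrank ℚ K + ε) *
            ((Box K H).ncard : ℝ) := by
  subst hg
  have hn0 : (0 : ℝ) < n := by
    have : 0 < n := by omega
    exact_mod_cast this
  refine FreyAvg.main hn hl0 ?_ hκ hε
  rwa [le_div_iff₀ hn0] at hl1

end Pool.Agent.Results.MP_6babc4_nt.AlmostAllHyperelliptic
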