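import Mathlib
import Pool.Agent.Lib.MP_6babc4_nt.Defs
import Pool.Agent.Lib.MP_6babc4_nt.SharpArch
import Pool.Agent.Lib.MP_6babc4_nt.SharpPell
import Pool.Agent.Lib.MP_6babc4_nt.SharpField
import Pool.Agent.Lib.MP_6babc4_nt.SharpGood

/-!
# The dependence on the field in Frey's height inequality: the sharp constant `1 / (2 [K : ℚ])`

Over every number field `F` there are quadratic extensions `K / F` and elliptic curves over `K`
with good reduction everywhere (conductor `1`) whose Faltings height is at least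
`(1 / (2 [K : ℚ])) log |D_K| - (1 / 2) log log |D_K| - C`, and arbitrarily large.
-/

open NumberField Module IsDedekindDomain WeierstrassCurve

namespace Pool.Agent.Results.MP_6babc4_nt.SharpFieldDependence

/-- The Faltings height of the elliptic curve over the number field `K` given by the Weierstrass
equation `W`, **for curves with good reduction at every finite place of `K`**. For such a curve
the section `Δ_W ω^{⊗ 12}`, `ω = dx / (2y + a₁x + a₃)`, does not depend on the equation and
generates the 12-th power of the Hodge bundle of the Néron model at every finite place, so the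
Arakelov degree divided by `[K : ℚ]` is `- (1 / (12 [K : ℚ])) ∑_σ log (|σ Δ_W| ‖ω‖_σ ^ 12)` with
`‖ω‖_σ² = (i/2) ∫ ω ∧ ω̄ = 2 areaIntegral (σ W)`, the sum running over all embeddings
`σ : K → ℂ`. -/
noncomputable def goodHeight (K : Type*) [Field K] [NumberField K] (W : WeierstrassCurve K) : ℝ :=
  -(1 / (12 * (finrank ℚ K : ℝ))) *
    ∑ σ : K →+* ℂ, Real.log (‖σ W.Δ‖ * (2 * FreyHt.areaIntegral (W.map σ)) ^ 6)

/-- The function `x / 4 - log (1 + x) / 2` increases for `x ≥ 1`. -/
lemma mono {x y : ℝ} (hx : 1 ≤ x) (hxy : x ≤ y) :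
    x / 4 - 1 / 2 * Real.log (1 + x) ≤ y / 4 - 1 / 2 * Real.log (1 + y) := by
  have h1 : Real.log (1 + y) - Real.log (1 + x) ≤ (y - x) / 2 := by
    rw [← Real.log_div (by linarith) (by linarith)]
    have h2 : Real.log ((1 + y) / (1 + x)) ≤ (1 + y) / (1 + x) - 1 :=
      Real.log_le_sub_one_of_pos (div_pos (by linarith) (by linarith))
    have h3 : (1 + y) / (1 + x) - 1 = (y - x) / (1 + x) := by
      field_simp
      ring
    have h4 : (y - x) / (1 + x) ≤ (y - x) / 2 := by
      apply div_le_div_of_nonneg_left (by linarith) (by norm_num) (by linarith)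
    linarith
  linarith

/-- The archimedean estimate. -/
lemma height_ge {K : Type*} [Field K] [NumberField K] {W : WeierstrassCurve K} {A : ℤ}
    (hA : (18 : ℝ) ≤ A) (hΔ : W.Δ = 64) (hc : W.c₄ = 4 * (A : K)) :
    Real.log A / 4 - 1 / 2 * Real.log (1 + Real.log A) - (Real.log 2 + 1 / 2 * Real.log 300) ≤
      goodHeight K W := by
  set a : ℝ := (A : ℝ) with ha
  have ha0 : 0 < a := by linarith
  have hL0 : 0 ≤ Real.log a := Real.log_nonneg (by linarith)
  set U : ℝ := 300 * (1 + Real.log a) / Real.sqrt a with hU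
  have hsq : 0 < Real.sqrt a := Real.sqrt_pos.2 ha0
  have hU0 : 0 < U := by rw [hU]; positivity
  have hn : (0 : ℝ) < (finrank ℚ K : ℝ) := by exact_mod_cast finrank_pos
  have hterm : ∀ σ : K →+* ℂ,
      Real.log (‖σ W.Δ‖ * (2 * FreyHt.areaIntegral (W.map σ)) ^ 6) ≤
        12 * Real.log 2 + 6 * Real.log U := by
    intro σ
    have h1 : ‖(W.map σ).Δ‖ = 64 := by
      rw [map_Δ, hΔ, map_ofNat]
      norm_num
    have h2 : ‖(W.map σ).c₄‖ = 4 * a := by
      rw [map_c₄, hc, map_mul, map_ofNat, map_intCast, norm_mul, ha]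
      rw [Complex.norm_intCast, abs_of_pos (by rw [← ha]; exact ha0)]
      norm_num
    obtain ⟨h3, h4⟩ := FreySharp.area_sharp hA h1 h2
    rw [hΔ, map_ofNat]
    have e1 : ‖(OfNat.ofNat 64 : ℂ)‖ = 2 ^ 6 := by norm_num
    rw [e1, ← mul_pow, Real.log_pow]
    have h5 : Real.log (2 * (2 * FreyHt.areaIntegral (W.map σ))) ≤ 2 * Real.log 2 + Real.log U := by
      have h6 : Real.log (2 * (2 * FreyHt.areaIntegral (W.map σ))) ≤ Real.log (2 * (2 * U)) := by
        apply Real.log_le_log (by positivity)
        linarith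
      have h9 : Real.log (2 * (2 * U)) = 2 * Real.log 2 + Real.log U := by
        rw [Real.log_mul (by norm_num) (by positivity), Real.log_mul (by norm_num) hU0.ne']
        ring
      linarith
    push_cast
    linarith
  have hsum : ∑ σ : K →+* ℂ, Real.log (‖σ W.Δ‖ * (2 * FreyHt.areaIntegral (W.map σ)) ^ 6) ≤
      (finrank ℚ K : ℝ) * (12 * Real.log 2 + 6 * Real.log U) := by
    calc _ ≤ ∑ σ : K →+* ℂ, (12 * Real.log 2 + 6 * Real.log U) :=
          Finset.sum_le_sum fun σ _ => hterm σ
      _ = _ := by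
          rw [Finset.sum_const, Finset.card_univ, Embeddings.card, nsmul_eq_mul]
  have hlogU : Real.log U = Real.log 300 + Real.log (1 + Real.log a) - Real.log a / 2 := by
    rw [hU, Real.log_div (by positivity) hsq.ne', Real.log_mul (by norm_num) (by positivity),
      Real.log_sqrt ha0.le]
  have h7 : -(1 / (12 * (finrank ℚ K : ℝ))) *
      ((finrank ℚ K : ℝ) * (12 * Real.log 2 + 6 * Real.log U)) ≤ goodHeight K W := by
    rw [goodHeight, neg_mul, neg_mul, neg_le_neg_iff]
    gcongr
  have h8 : -(1 / (12 * (finrank ℚ K : ℝ))) *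
      ((finrank ℚ K : ℝ) * (12 * Real.log 2 + 6 * Real.log U)) =
      -(Real.log 2 + 1 / 2 * Real.log U) := by
    field_simp
    ring
  rw [h8, hlogU] at h7
  linarith

/-- For every number field `F` there is a constant `C` such that for every `B` there are a
quadratic extension `K / F` and an elliptic curve over `K` with good reduction at every finite
place of `K`, whose Faltings height is larger than `B` and at least
`(1 / (2 [K : ℚ])) log |D_K| - (1 / 2) log log |D_K| - C`. -/
theorem result : ∀ (F : Type) [Field F] [NumberField F], ∃ C : ℝ, ∀ B : ℝ,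
    ∃ (K : Type) (_ : Field K) (_ : NumberField K) (_ : Algebra F K) (W : WeierstrassCurve K),
      finrank F K = 2 ∧ W.Δ ≠ 0 ∧ FreySharp.GoodReductionEverywhere K W ∧ B < goodHeight K W ∧
      1 / (2 * (finrank ℚ K : ℝ)) * Real.log |((discr K : ℤ) : ℝ)| -
        1 / 2 * Real.log (Real.log |((discr K : ℤ) : ℝ)|) - C ≤ goodHeight K W := by
  intro F _ _
  obtain ⟨q, D, hq, hqN, hD, hdata⟩ := FreySharp.exists_data (discr F) (discr_ne_zero F)
  set e : ℝ := (finrank ℚ F : ℝ) with he
  have he1 : 1 ≤ e := by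
    rw [he]
    exact_mod_cast (finrank_pos : 0 < finrank ℚ F)
  have hDF : (1 : ℝ) ≤ |((discr F : ℤ) : ℝ)| := by
    rw [← Int.cast_abs]
    exact_mod_cast Int.one_le_abs (discr_ne_zero F)
  have hDr : (1 : ℝ) ≤ D := by exact_mod_cast hD
  set C1 : ℝ := e * Real.log (4 * D) + 2 * Real.log |((discr F : ℤ) : ℝ)| with hC1
  have hC1' : 0 ≤ C1 := by
    have h1 : 0 ≤ Real.log (4 * D) := Real.log_nonneg (by linarith)
    have h2 : 0 ≤ Real.log |((discr F : ℤ) : ℝ)| := Real.log_nonneg hDF
    positivity
  set C0 : ℝ := Real.log 2 + 1 / 2 * Real.log 300 with hC0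
  refine ⟨C0 + C1 / (4 * e) + 1 / 2 * Real.log 2, fun B => ?_⟩
  obtain ⟨T, hT⟩ := exists_nat_gt (max 18 (Real.exp (8 * (B + 1 + C0))))
  obtain ⟨A, Z, hTA, hAZ, hA8, hA3, hD8, hZ, hqm, hqm2⟩ := hdata T
  have hTA' : (T : ℝ) ≤ A := by exact_mod_cast hTA
  have hA18 : (18 : ℝ) ≤ A := (le_max_left _ _).trans (hT.le.trans hTA')
  have hA18' : (18 : ℤ) ≤ A := by exact_mod_cast hA18
  have hAexp : Real.exp (8 * (B + 1 + C0)) < A :=
    (le_max_right _ _).trans_lt (hT.trans_le hTA')
  have hA0 : (0 : ℝ) < A := by linarith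
  set m : ℤ := D * (A - 12) with hm
  obtain ⟨K, i1, i2, i3, s, hfin, hs, hdisc⟩ := FreySharp.exists_quadratic F hq hqN hqm hqm2
  have hm8 : m % 8 = 7 := by
    have h1 : (A - 12) % 8 = 3 := by omega
    rw [hm, Int.mul_emod, hD8, h1]
    norm_num
  have hAK : (A : K) ≠ 0 := by
    have : A ≠ 0 := by omega
    exact_mod_cast this
  have hpell : A ^ 3 - 1728 = m * (-Z) ^ 2 := by rw [hAZ, hm]; ring
  have hs2 : ((s : 𝓞 K) : K) ^ 2 = (m : K) := by
    have := congrArg (algebraMap (𝓞 K) K) hs
    simpa using this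
  have ht2 : (((-Z : ℤ) : K) * (s : K)) ^ 2 = (A : K) ^ 3 - 1728 := by
    have h' : (A : K) ^ 3 - 1728 = m * ((-Z : ℤ) : K) ^ 2 := by
      exact_mod_cast congrArg (Int.cast : ℤ → K) hpell
    rw [h', mul_pow, hs2]
    ring
  set W : WeierstrassCurve K := FreySharp.curve (A : K) (((-Z : ℤ) : K) * (s : K)) with hW
  have hWΔ : W.Δ = 64 := FreySharp.curve_Δ hAK ht2
  have hWc : W.c₄ = 4 * (A : K) := FreySharp.curve_c₄ hAK ht2
  have hgood : FreySharp.GoodReductionEverywhere K W :=
    FreySharp.curve_good hs hA8 hA3 hm8 (by omega) hpell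
  have hht := height_ge hA18 hWΔ hWc
  rw [← hC0] at hht
  set L : ℝ := Real.log A with hL
  have hL1 : 1 ≤ L := by
    rw [hL, Real.le_log_iff_exp_le hA0]
    have := Real.exp_one_lt_d9
    linarith
  have hLB : 8 * (B + 1 + C0) < L := by
    rw [hL, Real.lt_log_iff_exp_lt hA0]
    exact hAexp
  refine ⟨K, i1, i2, i3, W, hfin, by rw [hWΔ]; norm_num, hgood, ?_, ?_⟩
  · -- the height is larger than `B`
    have h1 : Real.log ((1 + L) / 4) ≤ (1 + L) / 4 - 1 := Real.log_le_sub_one_of_pos (by linarith)
    rw [Real.log_div (by linarith) (by norm_num)] at h1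
    have h2 : Real.log 4 ≤ 2 := by
      rw [show (4 : ℝ) = 2 ^ 2 by norm_num, Real.log_pow]
      have := Real.log_two_lt_d9
      push_cast
      linarith
    linarith
  · -- comparison with the discriminant
    have hn : (finrank ℚ K : ℝ) = 2 * e := by
      rw [he, ← finrank_mul_finrank ℚ F K, hfin]
      push_cast
      ring
    have hdK : (3 : ℝ) ≤ |((discr K : ℤ) : ℝ)| := by
      have h1 : 1 < finrank ℚ K := by
        rw [← finrank_mul_finrank ℚ F K, hfin]
        have : 0 < finrank ℚ F := finrank_pos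
        omega
      have h2 := abs_discr_gt_two h1
      rw [← Int.cast_abs]
      exact_mod_cast h2
    set ΔK : ℝ := Real.log |((discr K : ℤ) : ℝ)| with hΔK
    have hΔ1 : 1 ≤ ΔK := by
      rw [hΔK, Real.le_log_iff_exp_le (by linarith)]
      have := Real.exp_one_lt_d9
      linarith
    have hupper : ΔK ≤ e * L + C1 := by
      have h1 : |((discr K : ℤ) : ℝ)| ≤
          (4 * (D * A)) ^ (finrank ℚ F) * |((discr F : ℤ) : ℝ)| ^ 2 := by
        have h2 : ((discr K).natAbs : ℝ) ≤
            (4 * (m.natAbs : ℝ)) ^ (finrank ℚ F) * ((discr F).natAbs : ℝ) ^ 2 := by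
          exact_mod_cast hdisc
        rw [Nat.cast_natAbs, Nat.cast_natAbs, Nat.cast_natAbs, Int.cast_abs, Int.cast_abs,
          Int.cast_abs] at h2
        refine h2.trans ?_
        have h3 : |((m : ℤ) : ℝ)| ≤ D * A := by
          rw [hm]
          push_cast
          rw [abs_of_nonneg (by
            have : (0 : ℝ) ≤ (A : ℝ) - 12 := by linarith
            positivity)]
          have : (A : ℝ) - 12 ≤ A := by linarith
          gcongr
        gcongr
      calc ΔK ≤ Real.log ((4 * (D * A)) ^ (finrank ℚ F) * |((discr F : ℤ) : ℝ)| ^ 2) := by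
            rw [hΔK]
            exact Real.log_le_log (by linarith) h1
        _ = e * L + C1 := by
            rw [Real.log_mul (by positivity) (by positivity), Real.log_pow, Real.log_pow, ← he,
              show (4 : ℝ) * (D * A) = (4 * D) * A by ring,
              Real.log_mul (by positivity) hA0.ne', hC1, ← hL]
            push_cast
            ring
    have he0 : 0 < e := by linarith
    set ℓ : ℝ := (ΔK - C1) / e with hℓ
    have hℓL : ℓ ≤ L := by
      rw [hℓ, div_le_iff₀ he0]
      linarith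
    have hmax : max ℓ 1 ≤ L := max_le hℓL hL1
    have h1 := mono (le_max_right ℓ 1) hmax
    have h2 : ℓ ≤ max ℓ 1 := le_max_left _ _
    have h3 : 1 + max ℓ 1 ≤ 2 * ΔK := by
      rcases le_total ℓ 1 with h | h
      · rw [max_eq_right h]; linarith
      · rw [max_eq_left h]
        have h4 : ℓ ≤ ΔK := by
          rw [hℓ, div_le_iff₀ he0]
          nlinarith
        linarith
    have h4 : Real.log (1 + max ℓ 1) ≤ Real.log 2 + Real.log ΔK := by
      rw [← Real.log_mul (by norm_num) (by linarith)]
      apply Real.log_le_log _ h3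
      have := le_max_right ℓ 1
      linarith
    have h5 : 1 / (2 * (finrank ℚ K : ℝ)) * ΔK = ℓ / 4 + C1 / (4 * e) := by
      rw [hn, hℓ]
      field_simp
      ring
    rw [h5]
    linarith

end Pool.Agent.Results.MP_6babc4_nt.SharpFieldDependence
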