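import Mathlib
import Pool.Agent.Lib.MP_6babc4_nt.Sp.Defs
import Pool.Agent.Lib.MP_6babc4_nt.Sp.Main

/-!
# Frey's inequality for superelliptic Jacobians outside a thin set, uniformly in the number field

The curves are `y ^ ℓ = f(x)`, `ℓ` prime, `f` of degree `n ≥ 3` over the ring of integers of a
number field `K` of degree `d`.

Definitions (in `Lib/MP_6babc4_nt/Sp/Defs.lean`, and `FreyAvg.Box` in `AvgDefs.lean`):

* `FreyAvg.Box K H`: the elements of `𝓞 K` all of whose conjugates are at most `H`.
* `FreySparse.Fam K n H`: the polynomials of degree `n` over `𝓞 K`, without multiple roots, with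
  coefficients in `Box K H`.
* `FreySparse.height ℓ f`: minus `1 / (2 d)` times the sum, over the embeddings `σ : K → ℂ` and
  `0 < j < ℓ`, of `log |det G_j(σ f)|`, with `G_j` the Gram matrix of the holomorphic forms
  `x^i dx / (ℓ y^j)` (`FreySparse.gram`). It is an upper bound, up to a constant, for the Faltings
  height of the Jacobian.
* `FreySparse.Bad ℓ f v`: the prime `v` is not above `ℓ` and is either ramified in the splitting
  field of `f`, or does not divide the leading coefficient and violates the condition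
  `FreySparse.Tree` on the configuration of the roots. `FreySparse.cond ℓ f` is the product of the
  norms of the bad primes: for `(ℓ, n) ≠ (2, 4), (3, 3)` they are primes of bad reduction of the
  Jacobian, so it divides the conductor.
* `FreySparse.Comp ℓ f v`: the prime `v`, not above `ℓ` and not dividing the leading coefficient, is
  not bad, but `f` has a multiple root modulo `v`. `FreySparse.excess ℓ f` is the product of the norms
  of these primes.
* `FreySparse.Frey ℓ κ c f`: `height ℓ f ≤ κ log (|D_K| cond ℓ f) + c`, `D_K` the discriminant of `K`.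
-/

open Polynomial NumberField Module FreySparse

namespace Pool.Agent.Results.MP_6babc4_nt.ThinExceptionalSet

/-- **Frey's inequality outside a thin set of superelliptic Jacobians.** Let `n ≥ 3`, `ℓ` a prime
number, `q = 12` if `ℓ = 2` and `q = 2 ℓ` otherwise, and `κ, ε > 0`. There is a constant `c` such
that for EVERY number field `K` of degree `d`, all `H, Z ≥ 1` and all `a, b` in `𝓞 K` the inequality
`height ℓ f ≤ κ log (|D_K| cond ℓ f) + c` holds for all the polynomials `f = a x^n + b x^(n-1) + ...`
of `Fam K n H` with `excess ℓ f ≤ Z`, with at most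
`c min(Z, H ^ (d (2 n - 2) / q)) H ^ (ℓ n^5 d^2 / (3 κ) + ε)` exceptions. -/
theorem result (d n ℓ q : ℕ) (hn : 3 ≤ n) (hℓ : ℓ.Prime) (hq : q = if ℓ = 2 then 12 else 2 * ℓ)
    (κ ε : ℝ) (hκ : 0 < κ) (hε : 0 < ε) :
    ∃ c : ℝ, ∀ (K : Type) [Field K] [NumberField K], finrank ℚ K = d →
      ∀ H : ℝ, 1 ≤ H → ∀ Z : ℝ, 1 ≤ Z → ∀ a b : 𝓞 K,
        {f ∈ Fam K n H | f.coeff n = a ∧ f.coeff (n - 1) = b ∧ (excess ℓ f : ℝ) ≤ Z ∧
          ¬ Frey ℓ κ c f}.Finite ∧
        ({f ∈ Fam K n H | f.coeff n = a ∧ f.coeff (n - 1) = b ∧ (excess ℓ f : ℝ) ≤ Z ∧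
          ¬ Frey ℓ κ c f}.ncard : ℝ) ≤
            c * min Z (H ^ ((d : ℝ) * (2 * n - 2) / q)) *
              H ^ ((ℓ : ℝ) * (n : ℝ) ^ 5 * (d : ℝ) ^ 2 / (3 * κ) + ε) := by
  subst hq
  exact FreySparse.main d n ℓ hn hℓ hκ hε

end Pool.Agent.Results.MP_6babc4_nt.ThinExceptionalSet
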